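import Mathlib

/-!
# MP_7500ea_al, board fi_modules: counting for the row CNB

The vectors with nontrivial stabiliser are counted with the elements of prime order, coset by coset.
-/

set_option autoImplicit false

namespace Pool.Agent.H75.FI

section count

open scoped Classical

variable {G V : Type} [Group G] [Fintype G] [AddCommGroup V] [Fintype V]
  (ρ : G →* AddMonoid.End V) (N : Subgroup G)

/-- the nonzero fixed vectors -/
noncomputable def Fx (g : G) : Finset V := Finset.univ.filter fun x => x ≠ 0 ∧ ρ g x = x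

/-- the elements of prime order outside `N` with nonzero fixed vectors -/
noncomputable def Pr : Finset G :=
  Finset.univ.filter fun g => g ∉ N ∧ (orderOf g).Prime ∧ ∃ x : V, x ≠ 0 ∧ ρ g x = x

/-- the weight of an element of prime order -/
noncomputable def wt (q : ℕ) : ℝ := 1 / ((q : ℝ) - 1)

theorem wt_nn {q : ℕ} (h : 1 ≤ q) : 0 ≤ wt q := by
  unfold wt
  have : (1 : ℝ) ≤ q := by exact_mod_cast h
  exact div_nonneg zero_le_one (by linarith)

variable {ρ N}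

omit [Fintype G] in
theorem mem_Fx {g : G} {x : V} : x ∈ Fx ρ g ↔ x ≠ 0 ∧ ρ g x = x := by
  unfold Fx
  rw [Finset.mem_filter]
  exact ⟨fun h => h.2, fun h => ⟨Finset.mem_univ _, h⟩⟩

theorem mem_Pr {g : G} : g ∈ Pr ρ N ↔ g ∉ N ∧ (orderOf g).Prime ∧ ∃ x : V, x ≠ 0 ∧ ρ g x = x := by
  unfold Pr
  rw [Finset.mem_filter]
  exact ⟨fun h => h.2, fun h => ⟨Finset.mem_univ _, h⟩⟩

omit [Fintype G] [Fintype V] in
theorem fix_pow {g : G} {x : V} (h : ρ g x = x) (i : ℕ) : ρ (g ^ i) x = x := by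
  induction i with
  | zero => rw [pow_zero, map_one]; rfl
  | succ i ih =>
    rw [pow_succ, map_mul, AddMonoid.End.coe_mul, Function.comp_apply, h, ih]

/-- every bad vector has total weight at least one -/
theorem one_le_weight (hN : ∀ z ∈ N, ∀ x : V, x ≠ 0 → ρ z x = x → z = 1)
    {x : V} (hx : x ≠ 0) {g : G} (hg : g ≠ 1) (hgx : ρ g x = x) :
    1 ≤ ∑ g ∈ (Pr ρ N).filter fun g => ρ g x = x, wt (orderOf g) := by
  have ho : orderOf g ≠ 1 := by
    rw [Ne, orderOf_eq_one_iff]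
    exact hg
  obtain ⟨q, hq, hqd⟩ := Nat.exists_prime_and_dvd ho
  set e : G := g ^ (orderOf g / q) with he
  have heo : orderOf e = q := orderOf_pow_orderOf_div (orderOf_pos g).ne' hqd
  have hex : ρ e x = x := fix_pow hgx _
  have hq1 : (0 : ℝ) < (q : ℝ) - 1 := by
    have : (1 : ℝ) < q := by exact_mod_cast hq.one_lt
    linarith
  -- the powers of `e`
  have hpo : ∀ i ∈ Finset.Ico 1 q, orderOf (e ^ i) = q := by
    intro i hi
    rw [Finset.mem_Ico] at hi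
    rw [orderOf_pow' e (by omega), heo]
    have h1 : Nat.gcd q i = 1 := by
      rw [← Nat.coprime_iff_gcd_eq_one, Nat.Prime.coprime_iff_not_dvd hq]
      intro h2
      have := Nat.le_of_dvd (by omega) h2
      omega
    rw [h1, Nat.div_one]
  have hsub : (Finset.Ico 1 q).image (fun i => e ^ i) ⊆
      (Pr ρ N).filter fun g => ρ g x = x := by
    intro y hy
    obtain ⟨i, hi, rfl⟩ := Finset.mem_image.1 hy
    have h1 := hpo i hi
    have h2 : ρ (e ^ i) x = x := fix_pow hex i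
    rw [Finset.mem_filter, mem_Pr, h1]
    refine ⟨⟨fun h3 => ?_, hq, x, hx, h2⟩, h2⟩
    have h4 := hN _ h3 x hx h2
    rw [h4, orderOf_one] at h1
    exact hq.ne_one h1.symm
  have hinj : Set.InjOn (fun i => e ^ i) (Finset.Ico 1 q : Finset ℕ) := by
    intro i hi j hj hij
    rw [Finset.coe_Ico, Set.mem_Ico] at hi hj
    exact pow_injOn_Iio_orderOf (by rw [heo]; exact hi.2) (by rw [heo]; exact hj.2) hij
  calc (1 : ℝ) = ∑ i ∈ Finset.Ico 1 q, wt q := by
        rw [Finset.sum_const, Nat.card_Ico, nsmul_eq_mul, Nat.cast_sub hq.one_lt.le, Nat.cast_one]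
        unfold wt
        field_simp
    _ = ∑ i ∈ Finset.Ico 1 q, wt (orderOf (e ^ i)) :=
        Finset.sum_congr rfl fun i hi => by rw [hpo i hi]
    _ = ∑ y ∈ (Finset.Ico 1 q).image (fun i => e ^ i), wt (orderOf y) := by
        rw [Finset.sum_image hinj]
    _ ≤ ∑ g ∈ (Pr ρ N).filter fun g => ρ g x = x, wt (orderOf g) :=
        Finset.sum_le_sum_of_subset_of_nonneg hsub fun y _ _ => wt_nn (orderOf_pos y)

theorem lower (hN : ∀ z ∈ N, ∀ x : V, x ≠ 0 → ρ z x = x → z = 1)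
    (hbad : ∀ x : V, x ≠ 0 → ∃ g : G, g ≠ 1 ∧ ρ g x = x) :
    (Fintype.card V : ℝ) - 1 ≤ ∑ g ∈ Pr ρ N, ((Fx ρ g).card : ℝ) * wt (orderOf g) := by
  have h1 : ∑ g ∈ Pr ρ N, ((Fx ρ g).card : ℝ) * wt (orderOf g) =
      ∑ x ∈ Finset.univ.filter fun x : V => x ≠ 0,
        ∑ g ∈ (Pr ρ N).filter fun g => ρ g x = x, wt (orderOf g) := by
    have h2 : ∀ g ∈ Pr ρ N, ((Fx ρ g).card : ℝ) * wt (orderOf g) =
        ∑ x ∈ Fx ρ g, wt (orderOf g) := fun g _ => by
      rw [Finset.sum_const, nsmul_eq_mul]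
    rw [Finset.sum_congr rfl h2]
    refine Finset.sum_comm' fun g x => ?_
    rw [mem_Fx, Finset.mem_filter, Finset.mem_filter]
    constructor
    · rintro ⟨a, b, c⟩
      exact ⟨⟨a, c⟩, Finset.mem_univ _, b⟩
    · rintro ⟨⟨a, c⟩, -, b⟩
      exact ⟨a, b, c⟩
  rw [h1]
  have h3 : ∑ x ∈ Finset.univ.filter fun x : V => x ≠ 0, (1 : ℝ) ≤
      ∑ x ∈ Finset.univ.filter fun x : V => x ≠ 0,
        ∑ g ∈ (Pr ρ N).filter fun g => ρ g x = x, wt (orderOf g) := by
    refine Finset.sum_le_sum fun x hx => ?_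
    rw [Finset.mem_filter] at hx
    obtain ⟨g, hg, hgx⟩ := hbad x hx.2
    exact one_le_weight hN hx.2 hg hgx
  refine le_trans (le_of_eq ?_) h3
  rw [Finset.sum_const, nsmul_eq_mul, mul_one, Finset.filter_ne' Finset.univ (0 : V),
    Finset.card_erase_of_mem (Finset.mem_univ _), Finset.card_univ,
    Nat.cast_sub Fintype.card_pos, Nat.cast_one]

omit [Fintype G] in
theorem card_Fx (g : G) : (Fx ρ g).card + 1 = Nat.card {v : V // ρ g v = v} := by
  rw [Nat.card_eq_fintype_card, Fintype.card_subtype]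
  have h1 : Fx ρ g = (Finset.univ.filter fun v : V => ρ g v = v).erase 0 := by
    ext x
    rw [mem_Fx, Finset.mem_erase, Finset.mem_filter]
    exact ⟨fun h => ⟨h.1, Finset.mem_univ _, h.2⟩, fun h => ⟨h.1, h.2.2⟩⟩
  rw [h1]
  refine Finset.card_erase_add_one ?_
  rw [Finset.mem_filter]
  exact ⟨Finset.mem_univ _, map_zero _⟩

omit [Fintype G] in
theorem order_coset [N.Normal] {g : G} (hg : g ∉ N) (hp : (orderOf g).Prime) :
    orderOf (g : G ⧸ N) = orderOf g := by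
  have h1 : orderOf (g : G ⧸ N) ∣ orderOf g := orderOf_map_dvd (QuotientGroup.mk' N) g
  rcases (Nat.dvd_prime hp).1 h1 with h | h
  · exfalso
    rw [orderOf_eq_one_iff, QuotientGroup.eq_one_iff] at h
    exact hg h
  · exact h

/-- the elements of one coset -/
theorem coset_le [N.Normal] {t : ℕ} (ht : 1 ≤ t)
    (hC : ∀ a : G, ∀ s : ℕ, 0 < s → a ^ s ∈ N →
      Nat.card {z : N // ∃ v : V, v ≠ 0 ∧ ρ (a * z) v = v} ≤ s) (c : G ⧸ N) :
    ∑ g ∈ (Pr ρ N).filter fun g : G => (g : G ⧸ N) = c, ((t : ℝ) - 1) * wt (orderOf g) ≤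
      2 * ((t : ℝ) - 1) := by
  have ht' : (0 : ℝ) ≤ (t : ℝ) - 1 := by
    have : (1 : ℝ) ≤ t := by exact_mod_cast ht
    linarith
  by_cases hem : ((Pr ρ N).filter fun g : G => (g : G ⧸ N) = c) = ∅
  · rw [hem, Finset.sum_empty]
    positivity
  · obtain ⟨a, ha⟩ := Finset.nonempty_iff_ne_empty.2 hem
    rw [Finset.mem_filter, mem_Pr] at ha
    obtain ⟨⟨ha1, ha2, -⟩, hac⟩ := ha
    set q := orderOf a with hq
    have hq1 : (0 : ℝ) < (q : ℝ) - 1 := by
      have : (1 : ℝ) < q := by exact_mod_cast ha2.one_lt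
      linarith
    have hord : ∀ g ∈ (Pr ρ N).filter fun g : G => (g : G ⧸ N) = c, orderOf g = q := by
      intro g hg
      rw [Finset.mem_filter, mem_Pr] at hg
      rw [← order_coset hg.1.1 hg.1.2.1, hg.2, ← hac, order_coset ha1 ha2]
    have hcard : ((Pr ρ N).filter fun g : G => (g : G ⧸ N) = c).card ≤ q := by
      refine le_trans ?_ (hC a q ha2.pos (by rw [hq, pow_orderOf_eq_one]; exact N.one_mem))
      rw [Nat.card_eq_fintype_card]
      have hz : ∀ g ∈ (Pr ρ N).filter fun g : G => (g : G ⧸ N) = c, a⁻¹ * g ∈ N := by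
        intro g hg
        rw [Finset.mem_filter] at hg
        rw [← QuotientGroup.eq, hac]
        exact hg.2.symm
      have hfx : ∀ g ∈ (Pr ρ N).filter fun g : G => (g : G ⧸ N) = c,
          ∃ v : V, v ≠ 0 ∧ ρ (a * (a⁻¹ * g)) v = v := by
        intro g hg
        obtain ⟨v, hv, hv2⟩ := (mem_Pr.1 (Finset.mem_filter.1 hg).1).2.2
        refine ⟨v, hv, ?_⟩
        rw [mul_inv_cancel_left]
        exact hv2
      have h5 := Fintype.card_le_of_injective
        (fun g : {g // g ∈ (Pr ρ N).filter fun g : G => (g : G ⧸ N) = c} =>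
          (⟨⟨a⁻¹ * g.1, hz g.1 g.2⟩, hfx g.1 g.2⟩ :
            {z : N // ∃ v : V, v ≠ 0 ∧ ρ (a * z) v = v})) (by
          intro g g' h
          simp only [Subtype.mk.injEq, mul_right_inj] at h
          exact Subtype.ext h)
      rw [Fintype.card_coe] at h5
      exact h5
    calc ∑ g ∈ (Pr ρ N).filter fun g : G => (g : G ⧸ N) = c, ((t : ℝ) - 1) * wt (orderOf g) =
          ∑ g ∈ (Pr ρ N).filter fun g : G => (g : G ⧸ N) = c, ((t : ℝ) - 1) * wt q :=
          Finset.sum_congr rfl fun g hg => by rw [hord g hg]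
      _ = (((Pr ρ N).filter fun g : G => (g : G ⧸ N) = c).card : ℝ) * (((t : ℝ) - 1) * wt q) := by
          rw [Finset.sum_const, nsmul_eq_mul]
      _ ≤ (q : ℝ) * (((t : ℝ) - 1) * wt q) := by
          refine mul_le_mul_of_nonneg_right (by exact_mod_cast hcard) ?_
          exact mul_nonneg ht' (wt_nn ha2.one_lt.le)
      _ = ((t : ℝ) - 1) * ((q : ℝ) / ((q : ℝ) - 1)) := by
          unfold wt
          ring
      _ ≤ ((t : ℝ) - 1) * 2 := by
          refine mul_le_mul_of_nonneg_left ?_ ht'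
          rw [div_le_iff₀ hq1]
          have : (2 : ℝ) ≤ q := by exact_mod_cast ha2.two_le
          linarith
      _ = 2 * ((t : ℝ) - 1) := by ring

/-- the counting -/
theorem count_le [N.Normal] (t : ℕ) (ht : 1 ≤ t)
    (hN : ∀ z ∈ N, ∀ x : V, x ≠ 0 → ρ z x = x → z = 1)
    (hC : ∀ a : G, ∀ s : ℕ, 0 < s → a ^ s ∈ N →
      Nat.card {z : N // ∃ v : V, v ≠ 0 ∧ ρ (a * z) v = v} ≤ s)
    (hF : ∀ a : G, a ∉ N → Nat.card {v : V // ρ a v = v} ≤ t)
    (hbad : ∀ x : V, x ≠ 0 → ∃ g : G, g ≠ 1 ∧ ρ g x = x) :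
    (Fintype.card V : ℝ) - 1 ≤ 2 * ((N.index : ℝ) - 1) * ((t : ℝ) - 1) := by
  refine (lower hN hbad).trans ?_
  have h1 : ∑ g ∈ Pr ρ N, ((Fx ρ g).card : ℝ) * wt (orderOf g) ≤
      ∑ g ∈ Pr ρ N, ((t : ℝ) - 1) * wt (orderOf g) := by
    refine Finset.sum_le_sum fun g hg => ?_
    refine mul_le_mul_of_nonneg_right ?_ (wt_nn (orderOf_pos g))
    have h2 := hF g (mem_Pr.1 hg).1
    rw [← card_Fx] at h2
    have h3 : ((Fx ρ g).card : ℝ) + 1 ≤ t := by exact_mod_cast h2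
    linarith
  refine h1.trans ?_
  have hmap : ∀ g ∈ Pr ρ N, (g : G ⧸ N) ∈ Finset.univ.erase (1 : G ⧸ N) := by
    intro g hg
    rw [Finset.mem_erase]
    refine ⟨fun h => (mem_Pr.1 hg).1 ?_, Finset.mem_univ _⟩
    rwa [QuotientGroup.eq_one_iff] at h
  rw [← Finset.sum_fiberwise_of_maps_to hmap]
  calc ∑ c ∈ Finset.univ.erase (1 : G ⧸ N), ∑ g ∈ (Pr ρ N).filter fun g : G => (g : G ⧸ N) = c,
        ((t : ℝ) - 1) * wt (orderOf g) ≤
        ∑ c ∈ Finset.univ.erase (1 : G ⧸ N), 2 * ((t : ℝ) - 1) :=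
        Finset.sum_le_sum fun c _ => coset_le ht hC c
    _ = 2 * ((N.index : ℝ) - 1) * ((t : ℝ) - 1) := by
        rw [Finset.sum_const, nsmul_eq_mul, Finset.card_erase_of_mem (Finset.mem_univ _),
          Finset.card_univ, Nat.cast_sub Fintype.card_pos, Nat.cast_one,
          Subgroup.index_eq_card, Nat.card_eq_fintype_card]
        ring

end count

/-! ### numerical facts -/

theorem num10 (n : ℕ) (h : 10 ≤ n) : 4 * n ^ 4 < 3 ^ n := by
  induction n, h using Nat.le_induction with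
  | base => norm_num
  | succ n hn ih =>
    have h1 : (n + 1) ^ 4 ≤ 3 * n ^ 4 := by
      have h2 : 10 * (n + 1) ≤ 11 * n := by omega
      have h3 : (10 * (n + 1)) ^ 4 ≤ (11 * n) ^ 4 := Nat.pow_le_pow_left h2 4
      rw [mul_pow, mul_pow] at h3
      norm_num at h3
      omega
    calc 4 * (n + 1) ^ 4 ≤ 4 * (3 * n ^ 4) := Nat.mul_le_mul_left 4 h1
      _ = 3 * (4 * n ^ 4) := by ring
      _ < 3 * 3 ^ n := by omega
      _ = 3 ^ (n + 1) := by ring

/-- the size of `V` -/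
theorem num_main (ε u : ℕ) (h5 : 5 ≤ ε) (h8 : ε ≠ 8) (hu : 0 < u)
    (hd : ∀ q : ℕ, q.Prime → q ∣ ε → q ∣ u) : 4 * (ε * ε - 1) ^ 2 < (u + 1) ^ ε := by
  have hle : ∀ q : ℕ, q.Prime → q ∣ ε → q ≤ u := fun q h1 h2 => Nat.le_of_dvd hu (hd q h1 h2)
  rcases Nat.lt_or_ge ε 10 with hlt | hge
  · interval_cases ε
    · have h1 := hle 5 (by norm_num) (by norm_num)
      calc 4 * (5 * 5 - 1) ^ 2 < (5 + 1) ^ 5 := by norm_num
        _ ≤ (u + 1) ^ 5 := Nat.pow_le_pow_left (by omega) 5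
    · have h1 := hd 2 (by norm_num) (by norm_num)
      have h2 := hd 3 (by norm_num) (by norm_num)
      have h3 : 6 ≤ u := by omega
      calc 4 * (6 * 6 - 1) ^ 2 < (6 + 1) ^ 6 := by norm_num
        _ ≤ (u + 1) ^ 6 := Nat.pow_le_pow_left (by omega) 6
    · have h1 := hle 7 (by norm_num) (by norm_num)
      calc 4 * (7 * 7 - 1) ^ 2 < (7 + 1) ^ 7 := by norm_num
        _ ≤ (u + 1) ^ 7 := Nat.pow_le_pow_left (by omega) 7
    · exact absurd rfl h8
    · have h1 := hle 3 (by norm_num) (by norm_num)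
      calc 4 * (9 * 9 - 1) ^ 2 < (3 + 1) ^ 9 := by norm_num
        _ ≤ (u + 1) ^ 9 := Nat.pow_le_pow_left (by omega) 9
  · obtain ⟨q, hq, hqd⟩ := Nat.exists_prime_and_dvd (show ε ≠ 1 by omega)
    have h1 := hle q hq hqd
    have h2 := hq.two_le
    calc 4 * (ε * ε - 1) ^ 2 ≤ 4 * (ε * ε) ^ 2 :=
          Nat.mul_le_mul_left 4 (Nat.pow_le_pow_left (Nat.sub_le _ _) 2)
      _ = 4 * ε ^ 4 := by ring
      _ < 3 ^ ε := num10 ε hge
      _ ≤ (u + 1) ^ ε := Nat.pow_le_pow_left (by omega) ε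

/-- the contradiction -/
theorem num_contra (n v t : ℕ) (hn : 1 ≤ n) (hv : 2 ≤ v) (ht : t * t ≤ v) (ht1 : 1 ≤ t)
    (hbig : 4 * (n - 1) ^ 2 < v)
    (h : (v : ℝ) - 1 ≤ 2 * ((n : ℝ) - 1) * ((t : ℝ) - 1)) : False := by
  obtain ⟨m, rfl⟩ : ∃ m, n = m + 1 := ⟨n - 1, by omega⟩
  obtain ⟨s, rfl⟩ : ∃ s, t = s + 1 := ⟨t - 1, by omega⟩
  rw [Nat.add_sub_cancel] at hbig
  have h1 : v ≤ 2 * m * s + 1 := by
    have h2 : (v : ℝ) ≤ ((2 * m * s + 1 : ℕ) : ℝ) := by
      push_cast at h ⊢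
      linarith
    exact_mod_cast h2
  -- `(s + 1) ^ 2 ≤ 2 m s + 1` gives `s + 2 ≤ 2 m` or `s = 0`
  rcases Nat.eq_zero_or_pos s with h0 | h0
  · subst h0
    omega
  · have h3 : s * (s + 2) ≤ s * (2 * m) := by nlinarith
    have h4 : s + 2 ≤ 2 * m := Nat.le_of_mul_le_mul_left h3 h0
    have h5 : 2 * m * s ≤ 2 * m * (2 * m - 2) := Nat.mul_le_mul_left _ (by omega)
    have h6 : 2 * m * (2 * m - 2) + 4 * m = 4 * m ^ 2 := by
      obtain ⟨k, hk⟩ : ∃ k, 2 * m = k + 2 := ⟨2 * m - 2, by omega⟩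
      have h7 : 4 * m ^ 2 = (2 * m) * (2 * m) := by ring
      have h8 : 4 * m = 2 * (2 * m) := by ring
      rw [h7, h8, hk, Nat.add_sub_cancel]
      ring
    omega

end Pool.Agent.H75.FI
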