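import Pool.Agent.H6.FI.TargetsA
import Pool.Agent.H75.FI.CNBa

/-!
# MP_7500ea_al, board fi_modules: row CNB

A regular orbit of `D` in the large cases.
-/

set_option autoImplicit false

open FI

namespace Pool.Agent.H75.FI

section

variable {R V K : Type} [Group R] [AddCommGroup V] {ρ : R →* AddMonoid.End V} {U : Subgroup R}
  [Field K] [Module K V] {j : U →* Kˣ}

/-- a scalar with a nonzero fixed vector is trivial -/
theorem scal_fix (hρ : Function.Injective ρ) (hK : KSt ρ U j) {z : R} (hz : z ∈ U) {x : V}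
    (hx : x ≠ 0) (h : ρ z x = x) : z = 1 := by
  have h1 := hK.act ⟨z, hz⟩ x
  have h2 : (((j ⟨z, hz⟩ : Kˣ) : K) - 1) • x = 0 := by
    rw [sub_smul, one_smul, ← h1]
    exact sub_eq_zero.2 h
  have h3 : ((j ⟨z, hz⟩ : Kˣ) : K) = 1 :=
    sub_eq_zero.1 ((smul_eq_zero.1 h2).resolve_right hx)
  apply hρ
  rw [map_one]
  ext v
  have h4 := hK.act ⟨z, hz⟩ v
  rw [h3, one_smul] at h4
  exact h4

theorem j_inj (hρ : Function.Injective ρ) (hK : KSt ρ U j) : Function.Injective j := by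
  intro z z' h
  apply Subtype.ext
  apply hρ
  ext v
  rw [hK.act z v, hK.act z' v, h]

end

/-- a commutator of prime order -/
theorem exists_comm {R : Type} [Group R] [Finite R] {U D : Subgroup R} (hQD : QD U D) {a : R}
    (ha : a ∈ D) (haU : a ∉ U) : ∃ b ∈ D, ∃ q : ℕ, q.Prime ∧ a * b * a⁻¹ * b⁻¹ ∈ U ∧
      orderOf (a * b * a⁻¹ * b⁻¹) = q := by
  have h1 : ∃ b ∈ D, a * b ≠ b * a := by
    by_contra h
    exact haU (hQD.cen a ha fun b hb => by
      by_contra h2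
      exact h ⟨b, hb, h2⟩)
  obtain ⟨b, hb, hab⟩ := h1
  set z := a * b * a⁻¹ * b⁻¹ with hz
  have hzU : z ∈ U := hQD.com a ha b hb
  have hz1 : z ≠ 1 := by
    intro h
    apply hab
    rw [hz, mul_inv_eq_one, mul_inv_eq_iff_eq_mul] at h
    exact h
  have ho : orderOf z ≠ 1 := by
    rw [Ne, orderOf_eq_one_iff]
    exact hz1
  obtain ⟨q, hq, hqd⟩ := Nat.exists_prime_and_dvd ho
  have hzb : Commute z b := Subgroup.mem_centralizer_iff.1 (hQD.DC hb) z hzU
  have h2 : ∀ k : ℕ, a * b ^ k * a⁻¹ * (b ^ k)⁻¹ = z ^ k := by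
    intro k
    have h3 : a * b * a⁻¹ = z * b := by
      rw [hz, inv_mul_cancel_right]
    rw [← conj_pow, h3, hzb.mul_pow, mul_inv_cancel_right]
  refine ⟨b ^ (orderOf z / q), D.pow_mem hb _, q, hq, ?_, ?_⟩
  · rw [h2]
    exact U.pow_mem hzU _
  · rw [h2]
    exact orderOf_pow_orderOf_div (orderOf_pos z).ne' hqd

theorem pf_CNB (h1 : T_FPT) (h2 : T_CST) (h3 : T_LIN) (h4 : T_PRD) : T_CNB := by
  intro R V K _ _ _ _ _ ρ U D _ _ _ j ε hρ hK hQD hrel h5 h8
  classical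
  by_contra hcon
  have : Fintype D := Fintype.ofFinite D
  have : Fintype V := Fintype.ofFinite V
  have hUn := hQD.nU
  have hNn : (U.subgroupOf D).Normal := inferInstance
  set ρ' : D →* AddMonoid.End V := ρ.comp D.subtype with hρ'
  set t := Nat.sqrt (Nat.card V) with ht
  have hcardpos : 2 ≤ Nat.card V := Finite.one_lt_card
  have ht1 : 1 ≤ t := by
    rw [ht, Nat.le_sqrt]
    omega
  have htt : t * t ≤ Nat.card V := Nat.sqrt_le _
  have hN : ∀ z ∈ U.subgroupOf D, ∀ x : V, x ≠ 0 → ρ' z x = x → z = 1 := by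
    intro z hz x hx h
    exact Subtype.ext (scal_fix hρ hK (Subgroup.mem_subgroupOf.1 hz) hx h)
  have hC : ∀ a : D, ∀ s : ℕ, 0 < s → a ^ s ∈ U.subgroupOf D →
      Nat.card {z : U.subgroupOf D // ∃ v : V, v ≠ 0 ∧ ρ' (a * z) v = v} ≤ s := by
    intro a s hs ha
    refine le_trans ?_ (h2 R V K ρ U j hρ hK (a : R) (hQD.DC a.2) s hs
      (Subgroup.mem_subgroupOf.1 ha))
    refine Nat.card_le_card_of_injective
      (fun z => ⟨⟨((z.1 : D) : R), Subgroup.mem_subgroupOf.1 z.1.2⟩, z.2⟩) ?_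
    intro z z' h
    simp only [Subtype.mk.injEq] at h
    exact Subtype.ext (Subtype.ext (Subtype.ext h))
  have hF : ∀ a : D, a ∉ U.subgroupOf D → Nat.card {v : V // ρ' a v = v} ≤ t := by
    intro a ha
    have haU : (a : R) ∉ U := fun h => ha (Subgroup.mem_subgroupOf.2 h)
    obtain ⟨b, hb, q, hq, hU, ho⟩ := exists_comm hQD a.2 haU
    have h6 := h1 R V K ρ U j hρ hUn hK (a : R) (hQD.DC a.2) b (hQD.DC hb) q hq hU ho
    have h7 : 1 ≤ Nat.card {v : V // ρ (a : R) v = v} := by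
      have : Nonempty {v : V // ρ (a : R) v = v} := ⟨⟨0, map_zero _⟩⟩
      exact Nat.card_pos
    rw [ht, Nat.le_sqrt]
    calc Nat.card {v : V // ρ (a : R) v = v} * Nat.card {v : V // ρ (a : R) v = v} =
          Nat.card {v : V // ρ (a : R) v = v} ^ 2 := (pow_two _).symm
      _ ≤ Nat.card {v : V // ρ (a : R) v = v} ^ q := Nat.pow_le_pow_right h7 hq.two_le
      _ ≤ Nat.card V := h6
  have hbad : ∀ x : V, x ≠ 0 → ∃ g : D, g ≠ 1 ∧ ρ' g x = x := by
    intro x hx
    have h6 : D ⊓ St ρ x ≠ ⊥ := fun h => hcon ⟨x, hx, h⟩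
    obtain ⟨g, hg, hg1⟩ := (Subgroup.bot_or_exists_ne_one (D ⊓ St ρ x)).resolve_left h6
    exact ⟨⟨g, hg.1⟩, fun h => hg1 (congrArg Subtype.val h), hg.2⟩
  have hcount := count_le t ht1 hN hC hF hbad
  have hidx : (U.subgroupOf D).index = ε * ε := hrel
  rw [hidx, ← Nat.card_eq_fintype_card] at hcount
  -- the size of `V`
  have hfin : ε ≤ Module.finrank K V := by
    have h6 := h3 R V K ρ U D j hρ hK hQD
    rw [hrel] at h6
    exact Nat.mul_self_le_mul_self_iff.1 h6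
  have hKc : Nat.card U + 1 ≤ Nat.card K := by
    have h6 : Nat.card U ≤ Nat.card Kˣ := Nat.card_le_card_of_injective j (j_inj hρ hK)
    rw [Nat.card_units] at h6
    have h7 : 0 < Nat.card K := Nat.card_pos
    omega
  have hV : (Nat.card U + 1) ^ ε ≤ Nat.card V := by
    rw [Module.natCard_eq_pow_finrank (K := K) (V := V)]
    calc (Nat.card U + 1) ^ ε ≤ Nat.card K ^ ε := Nat.pow_le_pow_left hKc ε
      _ ≤ Nat.card K ^ Module.finrank K V := Nat.pow_le_pow_right Nat.card_pos hfin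
  have hbig : 4 * (ε * ε - 1) ^ 2 < Nat.card V :=
    lt_of_lt_of_le (num_main ε (Nat.card U) h5 h8 Nat.card_pos fun q hq hqd =>
      h4 R U D hQD q hq (hrel ▸ Dvd.dvd.mul_right hqd ε)) hV
  exact num_contra (ε * ε) (Nat.card V) t (by nlinarith) hcardpos htt ht1 hbig hcount

end Pool.Agent.H75.FI
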