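import Pool.Agent.H6.FI.TargetsB
import Pool.Agent.H6.FI.Lib

/-!
# MP_7500ea_al, board fi_modules: row EX2

The characters of `Γ` over `ν` if `ν` extends and `Γ / C ≅ S₅`.
-/

set_option autoImplicit false

open scoped Classical ComplexConjugate
open FI AMc AMt

namespace Pool.Agent.H75.FI

section basics

variable {Γ : Type} [Group Γ] [Fintype Γ]

theorem Ab_finite (U : Subgroup Γ) (θ : Γ → ℂ) : (Ab U θ).Finite := by
  obtain ⟨fs, hfs, -⟩ := _root_.FI.Lib.lS9 Γ U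
  exact Set.Finite.subset fs.finite_toSet fun χ hχ => (hfs χ).2 hχ.1

/-- characters of `Γ` do not see the conjugation -/
theorem over_cj {χ θ : Γ → ℂ} (hχ : χ ∈ IrrS (⊤ : Subgroup Γ)) (g : Γ) (h : Over χ θ) :
    Over χ (cj g θ) := by
  unfold Over cj at *
  have h1 : ∑ x : Γ, χ x * conj (θ (g * x * g⁻¹)) = ∑ x : Γ, χ x * conj (θ x) := by
    rw [← Equiv.sum_comp (MulAut.conj g).toEquiv (fun x => χ x * conj (θ x))]
    refine Finset.sum_congr rfl fun x _ => ?_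
    have h2 := (_root_.FI.Lib.lS1 Γ ⊤ χ hχ).2.1 g (Subgroup.mem_top g) x
    change χ x * conj (θ (g * x * g⁻¹)) = χ (g * x * g⁻¹) * conj (θ (g * x * g⁻¹))
    rw [h2]
  rw [h1]
  exact h

/-- characters over different invariant characters are different -/
theorem Ab_disj {M : Subgroup Γ} (hM : M.Normal) {φ φ' : Γ → ℂ} (hφ : φ ∈ IrrS M)
    (hφ' : φ' ∈ IrrS M) (hinv : ∀ g, cj g φ = φ) (hne : φ ≠ φ') :
    Disjoint (Ab ⊤ φ) (Ab ⊤ φ') := by
  rw [Set.disjoint_left]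
  intro χ h1 h2
  obtain ⟨u, -, hu⟩ := _root_.FI.Lib.lE2 Γ M ⊤ le_top (fun u _ g hg => hM.conj_mem g hg u) χ h1.1
    φ hφ φ' hφ' h1.2 h2.2
  rw [hinv u] at hu
  exact hne hu.symm

end basics

section inflate

variable {Γ : Type} [Group Γ] [Fintype Γ] {Z M C : Subgroup Γ} {δ : Γ →* Equiv.Perm (Fin 5)}

omit [Fintype Γ] in
theorem map_mem (h : AE Z M C δ) {g : Γ} (hg : g ∈ M) : δ g ∈ A5 := by
  rw [← h.map]
  exact Subgroup.mem_map_of_mem δ hg

/-- the inflation of a character of `A₅` -/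
theorem inflate (h : AE Z M C δ) {β : Equiv.Perm (Fin 5) → ℂ} (hβ : β ∈ IrrS A5) :
    rsf M (fun g => β (δ g)) ∈ IrrS M := by
  have h1 := (_root_.FI.Lib.lS1 (Equiv.Perm (Fin 5)) A5 β hβ).2.2.2.2.2
  have : Fintype M := Fintype.ofFinite M
  have : Fintype A5 := Fintype.ofFinite A5
  let p : M →* A5 := (δ.comp M.subtype).codRestrict A5 fun m => map_mem h m.2
  have hp : Function.Surjective p := by
    rintro ⟨σ, hσ⟩
    rw [← h.map] at hσ
    obtain ⟨m, hm, rfl⟩ := hσ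
    exact ⟨⟨m, hm⟩, rfl⟩
  have h2 := ((_root_.FI.Lib.lQI M A5 p hp).1 fun n => β n).1 h1
  refine ⟨_, h2, ?_⟩
  funext g
  unfold ext0 rsf
  by_cases hg : g ∈ M
  · rw [dif_pos hg, if_pos hg]
    rfl
  · rw [dif_neg hg, if_neg hg]

end inflate

theorem pf_EX2 (h1 : T_AEC) (h2 : T_A5T) (h3 : T_IMN) (h4 : T_GIS) (h5 : T_CLF) (h6 : T_ABL) :
    T_EX2 := by
  intro Γ _ _ Z M C δ hAE hδ ν hν μ hμ hμ1 hμν hμi
  have _ := h6
  obtain ⟨b4, b5, c3, c3', hA⟩ := h2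
  obtain ⟨-, -, -, hor⟩ := h1 Γ Z M C δ hAE
  obtain ⟨hI1, hI2, hI3⟩ := h3 Γ Z M C δ hAE ν hν μ hμ hμ1 hμν
  have hMn := hAE.nor
  have hZM : Z ≤ M := by
    rw [← hAE.inf]
    exact inf_le_left
  -- the second alternative
  have hCk : C = δ.ker := by
    ext g
    rw [hAE.ker, MonoidHom.mem_ker]
  have hCi : C.index = 120 := by
    rw [hCk, Subgroup.index_ker, MonoidHom.range_eq_top.2 hδ, Subgroup.card_top,
      Nat.card_eq_fintype_card, Fintype.card_perm, Fintype.card_fin]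
    rfl
  have hV : (M ⊔ C).index = 2 ∧ ∀ g, g ∈ M ⊔ C ↔ δ g ∈ A5 := by
    rcases hor with h | h
    · rw [hCi] at h
      exact absurd h.2 (by norm_num)
    · exact ⟨h.2.1, h.2.2.2⟩
  obtain ⟨hVi, hVm⟩ := hV
  have hμ0 : ∀ g, g ∉ M → μ g = 0 := (_root_.FI.Lib.lS1 Γ M μ hμ).1
  have hnT : NIn M ⊤ := ⟨le_top, fun u _ g hg => hMn.conj_mem g hg u⟩
  have hnV : NIn M (M ⊔ C) := ⟨le_sup_left, fun u _ g hg => hMn.conj_mem g hg u⟩
  -- the characters of `M` over `ν`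
  have hΦ1 : (fun g => μ g * rsf A5 (fun _ => 1) (δ g)) = μ := by
    funext g
    unfold rsf
    by_cases hg : g ∈ M
    · rw [if_pos (map_mem hAE hg), mul_one]
    · rw [hμ0 g hg, zero_mul]
  have hΦb : ∀ b : Equiv.Perm (Fin 5) → ℂ,
      (fun g => μ g * rsf A5 b (δ g)) = fun g => μ g * b (δ g) := by
    intro b
    funext g
    unfold rsf
    by_cases hg : g ∈ M
    · rw [if_pos (map_mem hAE hg)]
    · rw [hμ0 g hg, zero_mul, zero_mul]
  have hr4 : rsf A5 b4 ∈ IrrS A5 := (hA.all _).2 (Or.inr (Or.inl rfl))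
  have hr5 : rsf A5 b5 ∈ IrrS A5 := (hA.all _).2 (Or.inr (Or.inr (Or.inl rfl)))
  have hc3 : c3 ∈ IrrS A5 := (hA.all _).2 (Or.inr (Or.inr (Or.inr (Or.inl rfl))))
  have hc3' : c3' ∈ IrrS A5 := (hA.all _).2 (Or.inr (Or.inr (Or.inr (Or.inr rfl))))
  -- the extendible ones
  have hext : ∀ b : Equiv.Perm (Fin 5) → ℂ, b ∈ Irr (Equiv.Perm (Fin 5)) → rsf A5 b ∈ IrrS A5 →
      (∀ g, cj g (fun g => μ g * b (δ g)) = fun g => μ g * b (δ g)) ∧
      kk ⊤ (fun g => μ g * b (δ g)) = kk ⊤ μ ∧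
      dd ⊤ (fun g => μ g * b (δ g)) = (b 1).re * dd ⊤ μ := by
    intro b hb hrb
    have e1 : IsChar (⊤ : Subgroup Γ) (fun u => b (δ u)) :=
      _root_.FI.Lib.lA4.2.1 _ _ (δ.comp (⊤ : Subgroup Γ).subtype) b
        ((_root_.FI.Lib.lA3 (Equiv.Perm (Fin 5))).1 b hb).1
    have e2 : rsf M (fun g => b (δ g)) ∈ IrrS M := by
      have e3 : rsf M (fun g => b (δ g)) = rsf M (fun g => rsf A5 b (δ g)) := by
        funext g
        unfold rsf
        by_cases hg : g ∈ M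
        · rw [if_pos hg, if_pos hg]
          change b (δ g) = if δ g ∈ A5 then b (δ g) else 0
          rw [if_pos (map_mem hAE hg)]
        · rw [if_neg hg, if_neg hg]
      rw [e3]
      exact inflate hAE hrb
    obtain ⟨-, e4, e5, e6⟩ := h4 Γ M ⊤ hnT μ hμ hμ1 (fun u _ => hμi u) _ e1 e2
    refine ⟨fun g => e4 g (Subgroup.mem_top g), e5, ?_⟩
    rw [e6, map_one]
  obtain ⟨i4, k4, d4⟩ := hext b4 hA.h4 hr4
  obtain ⟨i5, k5, d5⟩ := hext b5 hA.h5 hr5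
  -- the character of degree three
  have hW : IsChar (M ⊔ C : Subgroup Γ) (fun u => c3 (δ u)) := by
    have e1 := (_root_.FI.Lib.lS1 (Equiv.Perm (Fin 5)) A5 c3 hc3).2.2.2.2.1
    exact _root_.FI.Lib.lA4.2.1 _ _ ((δ.comp (M ⊔ C).subtype).codRestrict A5
      fun g => (hVm _).1 g.2) _ e1
  obtain ⟨-, -, k3, d3⟩ := h4 Γ M (M ⊔ C) hnV μ hμ hμ1 (fun u _ => hμi u) _ hW
    (inflate hAE hc3)
  rw [map_one] at d3
  have hΦ3 : (fun g => μ g * c3 (δ g)) ∈ IrrS M := (hI1 c3 hc3).1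
  have hcj3 : ∀ u : Γ, cj u (fun g => μ g * c3 (δ g)) = fun g => μ g * cj (δ u) c3 (δ g) := by
    intro u
    funext g
    have e1 : μ (u * g * u⁻¹) = μ g := congrFun (hμi u) g
    change μ (u * g * u⁻¹) * c3 (δ (u * g * u⁻¹)) = μ g * c3 (δ u * δ g * (δ u)⁻¹)
    rw [e1, map_mul, map_mul, map_inv]
  have hst : stab ⊤ (fun g => μ g * c3 (δ g)) = M ⊔ C := by
    ext u
    rw [hVm]
    constructor
    · rintro ⟨-, hu⟩
      by_contra hn
      rw [hcj3, (hA.odd _ hn).1] at hu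
      exact hA.ne (hI3 c3' hc3' c3 hc3 (fun g => congrFun hu g)).symm
    · intro hu
      refine ⟨Subgroup.mem_top u, ?_⟩
      rw [hcj3]
      have e1 : cj (δ u) c3 = c3 := by
        funext σ
        exact (_root_.FI.Lib.lS1 (Equiv.Perm (Fin 5)) A5 c3 hc3).2.1 _ hu σ
      rw [e1]
  obtain ⟨-, kst, dst⟩ := h5 Γ M ⊤ hnT _ hΦ3
  rw [hst] at kst dst
  rw [Subgroup.relIndex_top_right, hVi] at dst
  -- an odd element
  obtain ⟨w, hw⟩ : ∃ w : Γ, δ w ∉ A5 := by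
    obtain ⟨w, hw⟩ := hδ (Equiv.swap 0 1)
    refine ⟨w, ?_⟩
    rw [hw, Equiv.Perm.mem_alternatingGroup, Equiv.Perm.sign_swap (by decide)]
    decide
  -- the decomposition
  have hdec : Ab ⊤ ν = Ab ⊤ μ ∪ (Ab ⊤ (fun g => μ g * b4 (δ g)) ∪
      (Ab ⊤ (fun g => μ g * b5 (δ g)) ∪ Ab ⊤ (fun g => μ g * c3 (δ g)))) := by
    ext χ
    constructor
    · rintro ⟨hχ, hχν⟩
      obtain ⟨ψ, hψ, hχψ, hψν⟩ := (_root_.FI.Lib.lOT Γ Z M ⊤ hZM le_top χ hχ ν hν).1 hχν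
      obtain ⟨β, hβ, rfl⟩ := hI2 ψ ⟨hψ, hψν⟩
      rcases (hA.all β).1 hβ with h | h | h | h | h
      · rw [h, hΦ1] at hχψ
        exact Or.inl ⟨hχ, hχψ⟩
      · rw [h, hΦb] at hχψ
        exact Or.inr (Or.inl ⟨hχ, hχψ⟩)
      · rw [h, hΦb] at hχψ
        exact Or.inr (Or.inr (Or.inl ⟨hχ, hχψ⟩))
      · rw [h] at hχψ
        exact Or.inr (Or.inr (Or.inr ⟨hχ, hχψ⟩))
      · rw [h] at hχψ
        refine Or.inr (Or.inr (Or.inr ⟨hχ, ?_⟩))
        have e1 := over_cj hχ w⁻¹ hχψ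
        have e2 : cj w⁻¹ (fun g => μ g * c3' (δ g)) = fun g => μ g * c3 (δ g) := by
          have e3 := hcj3 w
          rw [(hA.odd _ hw).1] at e3
          rw [← e3]
          funext g
          unfold cj
          congr 1
          group
        rw [e2] at e1
        exact e1
    · have hback : ∀ φ ∈ Ab M ν, χ ∈ Ab ⊤ φ → χ ∈ Ab ⊤ ν := fun φ hφ hχ =>
        ⟨hχ.1, (_root_.FI.Lib.lOT Γ Z M ⊤ hZM le_top χ hχ.1 ν hν).2 ⟨φ, hφ.1, hχ.2, hφ.2⟩⟩
      rintro (h | h | h | h)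
      · exact hback μ ⟨hμ, hμν⟩ h
      · refine hback _ ?_ h
        rw [← hΦb]
        exact hI1 _ hr4
      · refine hback _ ?_ h
        rw [← hΦb]
        exact hI1 _ hr5
      · exact hback _ (hI1 _ hc3) h
  have m4 : (fun g => μ g * b4 (δ g)) ∈ IrrS M := by
    rw [← hΦb]
    exact (hI1 _ hr4).1
  have m5 : (fun g => μ g * b5 (δ g)) ∈ IrrS M := by
    rw [← hΦb]
    exact (hI1 _ hr5).1
  have hone : ∀ β : Equiv.Perm (Fin 5) → ℂ, μ 1 * β (δ 1) = β 1 := by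
    intro β
    rw [map_one, hμ1, one_mul]
  have D1 := Ab_disj hMn hμ m4 hμi (fun h => by
    have e : μ 1 = b4 1 := (congrFun h 1).trans (hone b4)
    rw [hμ1, hA.d4] at e
    norm_num at e)
  have D2 := Ab_disj hMn hμ m5 hμi (fun h => by
    have e : μ 1 = b5 1 := (congrFun h 1).trans (hone b5)
    rw [hμ1, hA.d5] at e
    norm_num at e)
  have D3 := Ab_disj hMn hμ hΦ3 hμi (fun h => by
    have e : μ 1 = c3 1 := (congrFun h 1).trans (hone c3)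
    rw [hμ1, hA.d3] at e
    norm_num at e)
  have D4 := Ab_disj hMn m4 m5 i4 (fun h => by
    have e : b4 1 = b5 1 := (hone b4).symm.trans ((congrFun h 1).trans (hone b5))
    rw [hA.d4, hA.d5] at e
    norm_num at e)
  have D5 := Ab_disj hMn m4 hΦ3 i4 (fun h => by
    have e : b4 1 = c3 1 := (hone b4).symm.trans ((congrFun h 1).trans (hone c3))
    rw [hA.d4, hA.d3] at e
    norm_num at e)
  have D6 := Ab_disj hMn m5 hΦ3 i5 (fun h => by
    have e : b5 1 = c3 1 := (hone b5).symm.trans ((congrFun h 1).trans (hone c3))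
    rw [hA.d5, hA.d3] at e
    norm_num at e)
  have F1 := Ab_finite ⊤ μ
  have F4 := Ab_finite ⊤ (fun g => μ g * b4 (δ g))
  have F5 := Ab_finite ⊤ (fun g => μ g * b5 (δ g))
  have F3 := Ab_finite ⊤ (fun g => μ g * c3 (δ g))
  have E1 : Disjoint (Ab ⊤ μ) (Ab ⊤ (fun g => μ g * b4 (δ g)) ∪
      (Ab ⊤ (fun g => μ g * b5 (δ g)) ∪ Ab ⊤ (fun g => μ g * c3 (δ g)))) :=
    Set.disjoint_union_right.2 ⟨D1, Set.disjoint_union_right.2 ⟨D2, D3⟩⟩
  have E2 : Disjoint (Ab ⊤ (fun g => μ g * b4 (δ g)))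
      (Ab ⊤ (fun g => μ g * b5 (δ g)) ∪ Ab ⊤ (fun g => μ g * c3 (δ g))) :=
    Set.disjoint_union_right.2 ⟨D4, D5⟩
  have n4 : (b4 1).re = 4 := by
    rw [hA.d4]
    norm_num
  have n5 : (b5 1).re = 5 := by
    rw [hA.d5]
    norm_num
  have n3 : (c3 1).re = 3 := by
    rw [hA.d3]
    norm_num
  constructor
  · have e1 : kk ⊤ ν = kk ⊤ μ + (kk ⊤ (fun g => μ g * b4 (δ g)) +
        (kk ⊤ (fun g => μ g * b5 (δ g)) + kk ⊤ (fun g => μ g * c3 (δ g)))) := by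
      unfold kk
      rw [hdec, Set.ncard_union_eq E1 F1 (F4.union (F5.union F3)),
        Set.ncard_union_eq E2 F4 (F5.union F3), Set.ncard_union_eq D6 F5 F3]
    rw [e1, k4, k5, ← kst, k3]
    ring
  · have e1 : dd ⊤ ν = dd ⊤ μ + (dd ⊤ (fun g => μ g * b4 (δ g)) +
        (dd ⊤ (fun g => μ g * b5 (δ g)) + dd ⊤ (fun g => μ g * c3 (δ g)))) := by
      unfold dd
      rw [hdec, finsum_mem_union E1 F1 (F4.union (F5.union F3)),
        finsum_mem_union E2 F4 (F5.union F3), finsum_mem_union D6 F5 F3]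
    rw [e1, d4, d5, dst, d3, n4, n5, n3]
    push_cast
    ring

end Pool.Agent.H75.FI
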