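import Pool.Agent.H6.FI.TargetsA

/-!
# MP_7500ea_al, board fi_modules: row QD1

Existence of the subgroup `D`, first part: the socle of `C / U`.
-/

set_option autoImplicit false

open FI

namespace Pool.Agent.H75.FI

section socle

variable {Q : Type} [Group Q] (S : Subgroup Q)

/-- the minimal normal subgroups inside `S` -/
def Mns : Set (Subgroup Q) :=
  {N | N.Normal ∧ N ≠ ⊥ ∧ N ≤ S ∧ ∀ N' : Subgroup Q, N'.Normal → N' ≠ ⊥ → N' ≤ N → N' = N}

/-- their product -/
def soc : Subgroup Q := sSup (Mns S)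

theorem soc_normal : (soc S).Normal := Subgroup.sSup_normal _ fun _ h => h.1

theorem soc_le : soc S ≤ S := sSup_le fun _ h => h.2.2.1

theorem le_soc {N : Subgroup Q} (h : N ∈ Mns S) : N ≤ soc S := le_sSup h

/-- every normal subgroup contains a minimal one -/
theorem exists_mns [Finite Q] (L : Subgroup Q) (hL : L.Normal) (hLS : L ≤ S) (hne : L ≠ ⊥) :
    ∃ N ∈ Mns S, N ≤ L := by
  classical
  have hfin : Finite (Subgroup Q) := inferInstance
  obtain ⟨N, hN1, hN2⟩ := Set.Finite.exists_minimal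
    (s := {N : Subgroup Q | N.Normal ∧ N ≠ ⊥ ∧ N ≤ L}) (Set.toFinite _) ⟨L, hL, hne, le_refl _⟩
  refine ⟨N, ⟨hN1.1, hN1.2.1, hN1.2.2.trans hLS, fun N' h1 h2 h3 => ?_⟩, hN1.2.2⟩
  exact le_antisymm h3 (hN2 ⟨h1, h2, h3.trans hN1.2.2⟩ h3)

/-- minimal normal subgroups of a solvable group are abelian -/
theorem mns_comm (hQ : Group.IsSolvable Q) {N : Subgroup Q} (hN : N ∈ Mns S) :
    ∀ a ∈ N, ∀ b ∈ N, a * b = b * a := by
  have hn := hN.1
  have h1 : ⁅N, N⁆ < N := Group.IsSolvable.commutator_lt_of_ne_bot hN.2.1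
  have h2 : ⁅N, N⁆ = ⊥ := by
    by_contra h
    exact h1.ne (hN.2.2.2 _ (Subgroup.commutator_normal N N) h h1.le)
  intro a ha b hb
  have h3 := Subgroup.commutator_mem_commutator ha hb
  rw [h2, Subgroup.mem_bot, commutatorElement_eq_one_iff_mul_comm] at h3
  exact h3

theorem mns_comm2 (hQ : Group.IsSolvable Q) {N N' : Subgroup Q} (hN : N ∈ Mns S)
    (hN' : N' ∈ Mns S) : ∀ a ∈ N, ∀ b ∈ N', a * b = b * a := by
  by_cases h : N = N'
  · subst h
    exact mns_comm S hQ hN
  · have hn := hN.1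
    have hn' := hN'.1
    have h1 : N ⊓ N' = ⊥ := by
      by_contra hne
      have h2 : (N ⊓ N').Normal := Subgroup.normal_inf_normal N N'
      exact h ((hN.2.2.2 _ h2 hne inf_le_left).symm.trans (hN'.2.2.2 _ h2 hne inf_le_right))
    intro a ha b hb
    exact Subgroup.commute_of_normal_of_disjoint N N' hn hn' (disjoint_iff.2 h1) a b ha hb

theorem soc_comm (hQ : Group.IsSolvable Q) : ∀ a ∈ soc S, ∀ b ∈ soc S, a * b = b * a := by
  have h1 : ∀ N ∈ Mns S, N ≤ Subgroup.centralizer (soc S : Set Q) := by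
    intro N hN
    rw [Subgroup.le_centralizer_iff]
    refine sSup_le fun N' hN' => ?_
    intro a ha
    rw [Subgroup.mem_centralizer_iff]
    intro b hb
    exact mns_comm2 S hQ hN hN' b hb a ha
  have h2 : soc S ≤ Subgroup.centralizer (soc S : Set Q) := sSup_le h1
  intro a ha b hb
  exact ((Subgroup.mem_centralizer_iff.1 (h2 ha)) b hb).symm

/-- normal subgroups of the socle have complements -/
theorem soc_compl [Finite Q] (L : Subgroup Q) (hL : L.Normal) (hLD : L ≤ soc S) :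
    ∃ L' : Subgroup Q, L'.Normal ∧ L' ≤ soc S ∧ L ⊓ L' = ⊥ ∧ L ⊔ L' = soc S := by
  classical
  obtain ⟨K, hK1, hK2⟩ := Set.Finite.exists_maximal
    (s := {K : Subgroup Q | K.Normal ∧ K ≤ soc S ∧ L ⊓ K = ⊥}) (Set.toFinite _)
    ⟨⊥, inferInstance, bot_le, inf_bot_eq _⟩
  refine ⟨K, hK1.1, hK1.2.1, hK1.2.2, ?_⟩
  by_contra hne
  have hlt : ¬ soc S ≤ L ⊔ K := fun h => hne (le_antisymm (sup_le hLD hK1.2.1) h)
  have hex : ∃ N ∈ Mns S, ¬ N ≤ L ⊔ K := by
    by_contra h
    apply hlt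
    refine sSup_le fun N hN => ?_
    by_contra h2
    exact h ⟨N, hN, h2⟩
  obtain ⟨N, hN, hNL⟩ := hex
  have hn := hN.1
  have hk := hK1.1
  have hbot : N ⊓ (L ⊔ K) = ⊥ := by
    by_contra h
    have h1 : (L ⊔ K).Normal := Subgroup.sup_normal L K
    have h2 : (N ⊓ (L ⊔ K)).Normal := Subgroup.normal_inf_normal N (L ⊔ K)
    have h3 := hN.2.2.2 _ h2 h inf_le_left
    exact hNL (inf_eq_left.1 h3)
  have hmem : K ⊔ N ∈ {K : Subgroup Q | K.Normal ∧ K ≤ soc S ∧ L ⊓ K = ⊥} := by
    refine ⟨Subgroup.sup_normal K N, sup_le hK1.2.1 (le_soc S hN), ?_⟩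
    rw [eq_bot_iff]
    intro x hx
    have hx2 : x ∈ K ⊔ N := hx.2
    obtain ⟨k, hk', n, hn', rfl⟩ := Subgroup.mem_sup_of_normal_left.1 hx2
    have h1 : n ∈ N ⊓ (L ⊔ K) := by
      refine ⟨hn', ?_⟩
      have h2 : n = k⁻¹ * (k * n) := by group
      rw [h2]
      exact (L ⊔ K).mul_mem ((L ⊔ K).inv_mem ((le_sup_right : K ≤ L ⊔ K) hk'))
        ((le_sup_left : L ≤ L ⊔ K) hx.1)
    rw [hbot, Subgroup.mem_bot] at h1
    have h2 : k * n ∈ L ⊓ K := by
      refine ⟨hx.1, ?_⟩
      rw [h1, mul_one]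
      exact hk'
    rw [hK1.2.2] at h2
    exact h2
  have h1 : K ⊔ N ≤ K := hK2 hmem le_sup_left
  exact hNL ((le_sup_right.trans h1).trans le_sup_right)

/-- the exponent of the socle is squarefree -/
theorem soc_sqf [Finite Q] (hQ : Group.IsSolvable Q) (q : ℕ) (a : Q) (ha : a ∈ soc S)
    (h : a ^ (q * q) = 1) : a ^ q = 1 := by
  have hc := soc_comm S hQ
  have hn := soc_normal S
  -- the elements of exponent `q`
  let W : Subgroup Q :=
    { carrier := {x | x ∈ soc S ∧ x ^ q = 1}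
      mul_mem' := by
        rintro x y ⟨hx, hx1⟩ ⟨hy, hy1⟩
        refine ⟨(soc S).mul_mem hx hy, ?_⟩
        have h2 : Commute x y := hc x hx y hy
        rw [h2.mul_pow, hx1, hy1, one_mul]
      one_mem' := ⟨(soc S).one_mem, one_pow q⟩
      inv_mem' := by
        rintro x ⟨hx, hx1⟩
        refine ⟨(soc S).inv_mem hx, ?_⟩
        rw [inv_pow, hx1, inv_one] }
  have hW : ∀ x, x ∈ W ↔ x ∈ soc S ∧ x ^ q = 1 := fun _ => Iff.rfl
  have hWn : W.Normal := by
    refine ⟨fun x hx g => ?_⟩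
    rw [hW] at hx ⊢
    refine ⟨hn.conj_mem x hx.1 g, ?_⟩
    rw [conj_pow, hx.2, mul_one, mul_inv_cancel]
  obtain ⟨L, -, hL2, hL3, hL4⟩ := soc_compl S W hWn fun x hx => ((hW x).1 hx).1
  have hkey : ∀ x ∈ L, x ^ q = 1 → x = 1 := by
    intro x hx hxq
    have h2 : x ∈ W ⊓ L := ⟨(hW x).2 ⟨hL2 hx, hxq⟩, hx⟩
    rw [hL3, Subgroup.mem_bot] at h2
    exact h2
  rw [← hL4] at ha
  obtain ⟨w, hw, l, hl, rfl⟩ := Subgroup.mem_sup_of_normal_left.1 ha
  have hcom : Commute w l := hc w ((hW w).1 hw).1 l (hL2 hl)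
  rw [hcom.mul_pow, ((hW w).1 hw).2, one_mul]
  rw [hcom.mul_pow, pow_mul, ((hW w).1 hw).2, one_pow, one_mul, pow_mul] at h
  exact hkey _ (L.pow_mem hl q) h

end socle

theorem pf_QD1 : T_QD1 := by
  intro R _ _ U hR hU hmax hab
  have hQ : Group.IsSolvable (R ⧸ U) := inferInstance
  set f : R →* R ⧸ U := QuotientGroup.mk' U with hf
  have hfs : Function.Surjective f := QuotientGroup.mk'_surjective U
  have hker : f.ker = U := QuotientGroup.ker_mk' U
  have hf1 : ∀ x, f x = 1 ↔ x ∈ U := fun x => QuotientGroup.eq_one_iff x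
  set C : Subgroup R := Subgroup.centralizer (U : Set R) with hC
  have hUC : U ≤ C := by
    intro a ha
    rw [hC, Subgroup.mem_centralizer_iff]
    intro b hb
    exact hab b hb a ha
  have hCn : C.Normal := Subgroup.normal_centralizer
  set S : Subgroup (R ⧸ U) := C.map f with hS
  set E : Subgroup (R ⧸ U) := soc S with hE
  have hEn : E.Normal := soc_normal S
  set D : Subgroup R := E.comap f with hD
  have hDm : ∀ x, x ∈ D ↔ f x ∈ E := fun _ => Iff.rfl
  have hDn : D.Normal := hEn.comap f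
  have hUD : U ≤ D := by
    intro x hx
    rw [hDm, (hf1 x).2 hx]
    exact E.one_mem
  have hDC : D ≤ C := by
    have h1 : D ≤ S.comap f := Subgroup.comap_mono (soc_le S)
    rwa [hS, Subgroup.comap_map_eq_self (hker.le.trans hUC)] at h1
  have hcm : ∀ a ∈ D, ∀ b ∈ D, f a * f b = f b * f a := fun a ha b hb =>
    soc_comm S hQ _ ha _ hb
  refine ⟨D, hU, hDn, hUD, hDC, fun a ha b hb => ?_, fun a ha h => ?_, fun L hL hUL hLD => ?_,
    fun q _ a ha h => ?_, fun L hL hUL hLC hLD => ?_⟩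
  · rw [← hf1, map_mul, map_mul, map_mul, map_inv, map_inv, hcm a ha b hb]
    group
  · have hZn : (D ⊓ Subgroup.centralizer (D : Set R)).Normal := by
      have : (Subgroup.centralizer (D : Set R)).Normal := Subgroup.normal_centralizer
      exact Subgroup.normal_inf_normal _ _
    have h1 : D ⊓ Subgroup.centralizer (D : Set R) = U := by
      refine hmax _ hZn (fun x hx y hy => ?_) fun x hx => ⟨hUD hx, ?_⟩
      · exact ((Subgroup.mem_centralizer_iff.1 hx.2) y hy.1).symm
      · change x ∈ Subgroup.centralizer (D : Set R)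
        rw [Subgroup.mem_centralizer_iff]
        intro y hy
        exact ((Subgroup.mem_centralizer_iff.1 (hDC hy)) x hx).symm
    rw [← h1]
    refine ⟨ha, ?_⟩
    change a ∈ Subgroup.centralizer (D : Set R)
    rw [Subgroup.mem_centralizer_iff]
    intro b hb
    exact (h b hb).symm
  · have hLm : L.map f ≤ E := by
      rw [Subgroup.map_le_iff_le_comap]
      exact hLD
    obtain ⟨K, hK1, hK2, hK3, hK4⟩ := soc_compl S (L.map f) (hL.map f hfs) hLm
    have hLe : (L.map f).comap f = L := Subgroup.comap_map_eq_self (hker.le.trans hUL)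
    refine ⟨K.comap f, hK1.comap f, ?_, Subgroup.comap_mono hK2, ?_, ?_⟩
    · intro x hx
      rw [Subgroup.mem_comap, (hf1 x).2 hx]
      exact K.one_mem
    · have h1 : (L.map f ⊓ K).comap f = U := by
        rw [hK3]
        exact hker
      rw [Subgroup.comap_inf, hLe] at h1
      exact h1
    · have h1 : (L.map f ⊔ K).comap f = D := by
        rw [hK4]
      rw [← Subgroup.comap_sup_eq f (L.map f) K hfs, hLe] at h1
      exact h1
  · rw [← hf1, map_pow]
    refine soc_sqf S hQ q (f a) ha ?_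
    rw [← map_pow, hf1]
    exact h
  · have hLe : (L.map f).comap f = L := Subgroup.comap_map_eq_self (hker.le.trans hUL)
    have hLb : L.map f = ⊥ := by
      by_contra hne
      obtain ⟨N, hN, hNL⟩ := exists_mns S (L.map f) (hL.map f hfs) (Subgroup.map_mono hLC) hne
      have h1 : N.comap f ≤ U := by
        refine (le_inf ?_ (Subgroup.comap_mono (le_soc S hN))).trans hLD.le
        exact (Subgroup.comap_mono hNL).trans hLe.le
      apply hN.2.1
      rw [← Subgroup.map_comap_eq_self_of_surjective hfs N, eq_bot_iff]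
      refine (Subgroup.map_mono h1).trans ?_
      rw [Subgroup.map_le_iff_le_comap]
      intro x hx
      rw [Subgroup.mem_comap, (hf1 x).2 hx]
      exact Subgroup.one_mem _
    have h2 : L = U := by
      rw [← hLe, hLb]
      exact hker
    exact h2

end Pool.Agent.H75.FI
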